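import Pool.Agent.H10.T2.Targets1

set_option autoImplicit false

open scoped Classical ComplexConjugate

namespace Pool.Agent.H68.T2

open AMc AMe AMt Pool.Agent.H77.EA.All

theorem ot_expand {Γ : Type} [Group Γ] [Fintype Γ] {M G : Subgroup Γ} (hMG : M ≤ G)
    {χ : Γ → ℂ} (hχ : χ ∈ IrrS G) (fs : Finset (Γ → ℂ)) (hfs : ∀ θ, θ ∈ fs ↔ θ ∈ IrrS M) :
    ∀ g ∈ M, (Nat.card M : ℂ) * χ g = ∑ ψ ∈ fs, (∑ h, χ h * conj (ψ h)) * ψ g := by
  have hc : (Nat.card M : ℂ) ≠ 0 := Nat.cast_ne_zero.2 Nat.card_pos.ne'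
  have key : (fun g => (if g ∈ M then (Nat.card M : ℂ) * χ g else 0) -
      ∑ ψ ∈ fs, (∑ h, χ h * conj (ψ h)) * ψ g) = 0 := by
    refine fS3 Γ M _ (fun g hg => ?_) (fun n hn g => ?_) (fun θ hθ => ?_)
    · rw [if_neg hg, zero_sub, neg_eq_zero]
      refine Finset.sum_eq_zero fun ψ hψ => ?_
      rw [(fS1 Γ M ψ ((hfs ψ).1 hψ)).1 g hg, mul_zero]
    · have h1 : n * g * n⁻¹ ∈ M ↔ g ∈ M := by
        constructor
        · intro h
          have := M.mul_mem (M.mul_mem (M.inv_mem hn) h) hn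
          have e : n⁻¹ * (n * g * n⁻¹) * n = g := by group
          rwa [e] at this
        · intro h
          exact M.mul_mem (M.mul_mem hn h) (M.inv_mem hn)
      have h2 : χ (n * g * n⁻¹) = χ g := (fS1 Γ G χ hχ).2.1 n (hMG hn) g
      have h3 : ∀ ψ ∈ fs, (∑ h, χ h * conj (ψ h)) * ψ (n * g * n⁻¹) =
          (∑ h, χ h * conj (ψ h)) * ψ g := by
        intro ψ hψ
        rw [(fS1 Γ M ψ ((hfs ψ).1 hψ)).2.1 n hn g]
      rw [Finset.sum_congr rfl h3, h2]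
      by_cases h : g ∈ M
      · rw [if_pos h, if_pos (h1.2 h)]
      · rw [if_neg h, if_neg (fun h' => h (h1.1 h'))]
    · have e1 : ∀ g, ((if g ∈ M then (Nat.card M : ℂ) * χ g else 0) -
          ∑ ψ ∈ fs, (∑ h, χ h * conj (ψ h)) * ψ g) * conj (θ g) =
          (Nat.card M : ℂ) * (χ g * conj (θ g)) -
            ∑ ψ ∈ fs, (∑ h, χ h * conj (ψ h)) * (ψ g * conj (θ g)) := by
        intro g
        rw [sub_mul, Finset.sum_mul]
        congr 1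
        · by_cases h : g ∈ M
          · rw [if_pos h]; ring
          · rw [if_neg h, (fS1 Γ M θ hθ).1 g h]; simp
        · exact Finset.sum_congr rfl fun ψ _ => by ring
      rw [Finset.sum_congr rfl fun g _ => e1 g, Finset.sum_sub_distrib, ← Finset.mul_sum,
        Finset.sum_comm]
      have e2 : ∀ ψ ∈ fs, ∑ g, (∑ h, χ h * conj (ψ h)) * (ψ g * conj (θ g)) =
          if ψ = θ then (∑ h, χ h * conj (θ h)) * (Nat.card M : ℂ) else 0 := by
        intro ψ hψ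
        rw [← Finset.mul_sum, fS2 Γ M ψ θ ((hfs ψ).1 hψ) hθ]
        by_cases h : ψ = θ
        · rw [if_pos h, if_pos h, h]
        · rw [if_neg h, if_neg h, mul_zero]
      rw [Finset.sum_congr rfl e2, Finset.sum_ite_eq' fs θ, if_pos ((hfs θ).2 hθ)]
      ring
  intro g hg
  have h := congrFun key g
  simp only [if_pos hg, Pi.zero_apply] at h
  exact sub_eq_zero.1 h

theorem ot : T_OT := by
  intro Γ _ _ N M G hNM hMG χ hχ θ hθ
  obtain ⟨fs, hfs, -⟩ := fS9 Γ M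
  have hc : (Nat.card M : ℂ) ≠ 0 := Nat.cast_ne_zero.2 Nat.card_pos.ne'
  have hcN : (Nat.card N : ℂ) ≠ 0 := Nat.cast_ne_zero.2 Nat.card_pos.ne'
  have hexp := ot_expand hMG hχ fs hfs
  have e1 : (Nat.card M : ℂ) * ∑ g, χ g * conj (θ g) =
      ∑ ψ ∈ fs, (∑ h, χ h * conj (ψ h)) * ∑ g, ψ g * conj (θ g) := by
    have e2 : ∀ g, (Nat.card M : ℂ) * (χ g * conj (θ g)) =
        ∑ ψ ∈ fs, (∑ h, χ h * conj (ψ h)) * (ψ g * conj (θ g)) := by
      intro g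
      by_cases h : g ∈ N
      · rw [← mul_assoc, hexp g (hNM h), Finset.sum_mul]
        exact Finset.sum_congr rfl fun ψ _ => by ring
      · rw [(fS1 Γ N θ hθ).1 g h]
        simp
    rw [Finset.mul_sum, Finset.sum_congr rfl fun g _ => e2 g, Finset.sum_comm]
    exact Finset.sum_congr rfl fun ψ _ => by rw [Finset.mul_sum]
  have hk : ∀ ψ ∈ fs, ∃ k k' : ℕ, ∑ h, χ h * conj (ψ h) = k * (Nat.card M : ℂ) ∧
      ∑ g, ψ g * conj (θ g) = k' * (Nat.card N : ℂ) := by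
    intro ψ hψ
    obtain ⟨k, hk⟩ := fS4 Γ M G hMG χ hχ ψ ((hfs ψ).1 hψ)
    obtain ⟨k', hk'⟩ := fS4 Γ N M hNM ψ ((hfs ψ).1 hψ) θ hθ
    exact ⟨k, k', hk, hk'⟩
  choose! k k' hk1 hk2 using hk
  have e3 : ∑ g, χ g * conj (θ g) = ((∑ ψ ∈ fs, k ψ * k' ψ : ℕ) : ℂ) * (Nat.card N : ℂ) := by
    apply mul_left_cancel₀ hc
    rw [e1, Nat.cast_sum, Finset.sum_mul, Finset.mul_sum]
    refine Finset.sum_congr rfl fun ψ hψ => ?_
    rw [hk1 ψ hψ, hk2 ψ hψ, Nat.cast_mul]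
    ring
  constructor
  · intro h
    have h1 : (∑ ψ ∈ fs, k ψ * k' ψ) ≠ 0 := by
      intro h0
      apply h
      rw [e3, h0, Nat.cast_zero, zero_mul]
    obtain ⟨ψ, hψ, h2⟩ := Finset.exists_ne_zero_of_sum_ne_zero h1
    refine ⟨ψ, (hfs ψ).1 hψ, ?_, ?_⟩
    · change ∑ g, χ g * conj (ψ g) ≠ 0
      rw [hk1 ψ hψ]
      exact mul_ne_zero (Nat.cast_ne_zero.2 (left_ne_zero_of_mul h2)) hc
    · change ∑ g, ψ g * conj (θ g) ≠ 0
      rw [hk2 ψ hψ]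
      exact mul_ne_zero (Nat.cast_ne_zero.2 (right_ne_zero_of_mul h2)) hcN
  · rintro ⟨ψ, hψ, h1, h2⟩
    have hψ' := (hfs ψ).2 hψ
    change ∑ g, χ g * conj (ψ g) ≠ 0 at h1
    change ∑ g, ψ g * conj (θ g) ≠ 0 at h2
    change ∑ g, χ g * conj (θ g) ≠ 0
    rw [hk1 ψ hψ'] at h1
    rw [hk2 ψ hψ'] at h2
    rw [e3]
    refine mul_ne_zero (Nat.cast_ne_zero.2 ?_) hcN
    have h3 : k ψ * k' ψ ≤ ∑ ψ ∈ fs, k ψ * k' ψ :=
      Finset.single_le_sum (f := fun ψ => k ψ * k' ψ) (fun _ _ => Nat.zero_le _) hψ'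
    have h4 : k ψ ≠ 0 := by
      intro h0
      rw [h0, Nat.cast_zero, zero_mul] at h1
      exact h1 rfl
    have h5 : k' ψ ≠ 0 := by
      intro h0
      rw [h0, Nat.cast_zero, zero_mul] at h2
      exact h2 rfl
    have h6 : 0 < k ψ * k' ψ := Nat.pos_of_ne_zero (mul_ne_zero h4 h5)
    omega

end Pool.Agent.H68.T2
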